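import Pool.Agent.helper78.NLS.Spec

/-!
# Module nls:CTG (project nls:): growth of the Cauchy transform at infinity
-/

set_option autoImplicit false

open Complex Metric Set Filter Topology MeasureTheory MPS
open Pool.Agent.helper98.ILF Pool.Agent.helper16.Multibrot

noncomputable section

namespace NLS

/-- the integral of a derivative of a function with compact support vanishes. -/
theorem CTG_int_fderiv {h : ℂ → ℂ} (hs : Sm h) (hc : HasCompactSupport h) (v : ℂ) :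
    ∫ w : ℂ, fderiv ℝ h w v = 0 := by
  have hd : Differentiable ℝ h := hs.differentiable (by simp)
  have hcont : Continuous (fun w => fderiv ℝ h w v) :=
    (hs.continuous_fderiv (by simp)).clm_apply continuous_const
  have hcs : HasCompactSupport (fun w => fderiv ℝ h w v) := hc.fderiv_apply ℝ v
  have h1 : Integrable (fun w : ℂ => fderiv ℝ (fun _ : ℂ => (1 : ℂ)) w v * h w) := by
    simp
  have h2 : Integrable (fun w : ℂ => (fun _ : ℂ => (1 : ℂ)) w * fderiv ℝ h w v) := by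
    simp only [one_mul]
    exact hcont.integrable_of_hasCompactSupport hcs
  have h3 : Integrable (fun w : ℂ => (fun _ : ℂ => (1 : ℂ)) w * h w) := by
    simp only [one_mul]
    exact hd.continuous.integrable_of_hasCompactSupport hc
  have := integral_mul_fderiv_eq_neg_fderiv_mul_of_integrable (𝕜 := ℂ) h1 h2 h3
    (fun x _ => differentiableAt_const _) (fun x _ => hd x)
  simpa using this

theorem CTG_int_dd {h : ℂ → ℂ} (hs : Sm h) (hc : HasCompactSupport h) : ∫ w : ℂ, dd h w = 0 := by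
  have hcont : ∀ v : ℂ, Continuous (fun w => fderiv ℝ h w v) := fun v =>
    (hs.continuous_fderiv (by simp)).clm_apply continuous_const
  have hi : ∀ v : ℂ, Integrable (fun w => fderiv ℝ h w v) := fun v =>
    (hcont v).integrable_of_hasCompactSupport (hc.fderiv_apply ℝ v)
  unfold dd
  rw [integral_div, integral_sub (hi 1) ((hi I).const_mul I), integral_const_mul,
    CTG_int_fderiv hs hc, CTG_int_fderiv hs hc]
  simp

theorem CTG_half {R : ℝ} {z w : ℂ} (hz : 2 * R ≤ ‖z‖) (hw : ‖w‖ < R) : ‖z‖ / 2 ≤ ‖z - w‖ := by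
  have := norm_sub_norm_le z w
  linarith

/-- the first bound. -/
theorem CTG_b1 {R : ℝ} {h : ℂ → ℂ} (hR : 0 < R) (hi : Integrable h) (hsupp : ∀ z, R ≤ ‖z‖ → h z = 0)
    {z : ℂ} (hz : 2 * R ≤ ‖z‖) : ‖∫ w : ℂ, h w / (z - w)‖ ≤ 2 / ‖z‖ * ∫ w : ℂ, ‖h w‖ := by
  have hz0 : 0 < ‖z‖ := by linarith
  rw [← integral_const_mul]
  refine norm_integral_le_of_norm_le (hi.norm.const_mul _) (Filter.Eventually.of_forall fun w => ?_)
  rcases le_or_gt R ‖w‖ with hw | hw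
  · rw [hsupp w hw]
    simp
  · rw [norm_div, div_eq_mul_inv, mul_comm]
    refine mul_le_mul_of_nonneg_right ?_ (norm_nonneg _)
    have h1 := CTG_half hz hw
    rw [inv_eq_one_div, div_le_div_iff₀ (by linarith) hz0]
    linarith

/-- the second bound. -/
theorem CTG_b2 {R : ℝ} {h : ℂ → ℂ} (hR : 0 < R) (hi : Integrable h) (h0 : ∫ w : ℂ, h w = 0)
    (hsupp : ∀ z, R ≤ ‖z‖ → h z = 0)
    {z : ℂ} (hz : 2 * R ≤ ‖z‖) (hiz : Integrable (fun w : ℂ => h w / (z - w))) :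
    ‖∫ w : ℂ, h w / (z - w)‖ ≤ 2 * R / ‖z‖ ^ 2 * ∫ w : ℂ, ‖h w‖ := by
  have hz0 : 0 < ‖z‖ := by linarith
  have hz1 : z ≠ 0 := norm_pos_iff.1 hz0
  have h1 : ∫ w : ℂ, h w / (z - w) = ∫ w : ℂ, (h w / (z - w) - h w / z) := by
    rw [integral_sub hiz (hi.div_const z), integral_div, h0]
    simp
  rw [h1, ← integral_const_mul]
  refine norm_integral_le_of_norm_le (hi.norm.const_mul _) (Filter.Eventually.of_forall fun w => ?_)
  rcases le_or_gt R ‖w‖ with hw | hw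
  · rw [hsupp w hw]
    simp
  · have h2 := CTG_half hz hw
    have h3 : 0 < ‖z - w‖ := by linarith
    have h4 : z - w ≠ 0 := norm_pos_iff.1 h3
    have h5 : h w / (z - w) - h w / z = w / (z * (z - w)) * h w := by
      field_simp
      ring
    rw [h5, norm_mul]
    refine mul_le_mul_of_nonneg_right ?_ (norm_nonneg _)
    rw [norm_div, norm_mul, div_le_div_iff₀ (by positivity) (by positivity)]
    have h6 : ‖w‖ * ‖z‖ ^ 2 ≤ R * ‖z‖ ^ 2 := mul_le_mul_of_nonneg_right hw.le (by positivity)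
    have h7 : R * ‖z‖ * (‖z‖ / 2) ≤ R * ‖z‖ * ‖z - w‖ := mul_le_mul_of_nonneg_left h2 (by positivity)
    nlinarith

theorem CTG_pi : ‖(1 / (Real.pi : ℂ))‖ ≤ 1 := by
  rw [norm_div, norm_one, Complex.norm_real, Real.norm_eq_abs, abs_of_pos Real.pi_pos,
    div_le_one Real.pi_pos]
  linarith [Real.two_le_pi]

theorem CTG (hALG : ALG_stmt) (hCTS : CTS_stmt) : CTG_stmt := by
  intro R h hR hSc
  obtain ⟨-, -, -, -, -, -, -, -, -, hlast⟩ := hALG
  obtain ⟨-, hdd, hcont, hcs⟩ := hlast R h hSc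
  obtain ⟨-, -, hcont', hcs'⟩ := hlast R (dd h) hdd
  obtain ⟨hSm, hddC, -, hform, -⟩ := hCTS.2 R h hSc
  obtain ⟨hSm', -, -, hform', hint'⟩ := hCTS.2 R (dd h) hdd
  have hi : Integrable h := hcont.integrable_of_hasCompactSupport hcs
  have hi' : Integrable (dd h) := hcont'.integrable_of_hasCompactSupport hcs'
  have h0 := CTG_int_dd hSc.sm hcs
  -- bounds on the compact ball
  obtain ⟨B1, hB1⟩ := (isCompact_closedBall (0 : ℂ) (2 * R)).exists_bound_of_continuousOn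
    (f := Ct h) hSm.continuous.continuousOn
  obtain ⟨B2, hB2⟩ := (isCompact_closedBall (0 : ℂ) (2 * R)).exists_bound_of_continuousOn
    (f := Ct (dd h)) hSm'.continuous.continuousOn
  have hB1n : 0 ≤ B1 := (norm_nonneg _).trans (hB1 0 (mem_closedBall_self (by linarith)))
  have hB2n : 0 ≤ B2 := (norm_nonneg _).trans (hB2 0 (mem_closedBall_self (by linarith)))
  set M1 : ℝ := ∫ w : ℂ, ‖h w‖ with hM1
  set M2 : ℝ := ∫ w : ℂ, ‖dd h w‖ with hM2
  have hM1n : 0 ≤ M1 := integral_nonneg fun w => norm_nonneg _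
  have hM2n : 0 ≤ M2 := integral_nonneg fun w => norm_nonneg _
  set L : ℝ := 1 + 1 / (2 * R) with hL
  have hL0 : 0 ≤ L := by rw [hL]; positivity
  refine ⟨B1 * (1 + 2 * R) + B2 * (1 + 2 * R) ^ 2 + 2 * M1 * L + 2 * R * M2 * L ^ 2,
    by positivity, fun z => ?_⟩
  have hp : 0 < 1 + ‖z‖ := by positivity
  rcases le_or_gt ‖z‖ (2 * R) with hz | hz
  · have hzm : z ∈ closedBall (0 : ℂ) (2 * R) := by simpa using hz
    constructor
    · rw [le_div_iff₀ hp]
      have h1 : ‖Ct h z‖ * (1 + ‖z‖) ≤ B1 * (1 + 2 * R) :=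
        mul_le_mul (hB1 z hzm) (by linarith) (by positivity) hB1n
      have : 0 ≤ B2 * (1 + 2 * R) ^ 2 + 2 * M1 * L + 2 * R * M2 * L ^ 2 := by positivity
      linarith
    · rw [hddC z, le_div_iff₀ (by positivity)]
      have h1 : ‖Ct (dd h) z‖ * (1 + ‖z‖) ^ 2 ≤ B2 * (1 + 2 * R) ^ 2 :=
        mul_le_mul (hB2 z hzm) (pow_le_pow_left₀ hp.le (by linarith) 2) (by positivity) hB2n
      have : 0 ≤ B1 * (1 + 2 * R) + 2 * M1 * L + 2 * R * M2 * L ^ 2 := by positivity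
      linarith
  · have hz0 : 0 < ‖z‖ := by linarith
    have hLz : 1 + ‖z‖ ≤ L * ‖z‖ := by
      rw [hL, add_mul, one_mul]
      have : 1 ≤ 1 / (2 * R) * ‖z‖ := by
        rw [one_div, ← div_eq_inv_mul, le_div_iff₀ (by positivity)]
        linarith
      linarith
    constructor
    · rw [hform z, norm_mul, le_div_iff₀ hp]
      have h1 := CTG_b1 hR hi hSc.supp hz.le
      have h2 : ‖(1 / (Real.pi : ℂ))‖ * ‖∫ w : ℂ, h w / (z - w)‖ ≤ 2 / ‖z‖ * M1 := by
        calc ‖(1 / (Real.pi : ℂ))‖ * ‖∫ w : ℂ, h w / (z - w)‖ ≤ 1 * ‖∫ w : ℂ, h w / (z - w)‖ :=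
              mul_le_mul_of_nonneg_right CTG_pi (norm_nonneg _)
          _ ≤ 2 / ‖z‖ * M1 := by rw [one_mul]; exact h1
      have h3 : 2 / ‖z‖ * M1 * (1 + ‖z‖) ≤ 2 * M1 * L := by
        calc 2 / ‖z‖ * M1 * (1 + ‖z‖) ≤ 2 / ‖z‖ * M1 * (L * ‖z‖) :=
              mul_le_mul_of_nonneg_left hLz (by positivity)
          _ = 2 * M1 * L := by field_simp
      have h4 : ‖(1 / (Real.pi : ℂ))‖ * ‖∫ w : ℂ, h w / (z - w)‖ * (1 + ‖z‖) ≤
          2 / ‖z‖ * M1 * (1 + ‖z‖) := mul_le_mul_of_nonneg_right h2 hp.le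
      have : 0 ≤ B1 * (1 + 2 * R) + B2 * (1 + 2 * R) ^ 2 + 2 * R * M2 * L ^ 2 := by positivity
      linarith
    · rw [hddC z, hform' z, norm_mul, le_div_iff₀ (by positivity)]
      have h1 := CTG_b2 hR hi' h0 hdd.supp hz.le (hint' z)
      have h2 : ‖(1 / (Real.pi : ℂ))‖ * ‖∫ w : ℂ, dd h w / (z - w)‖ ≤ 2 * R / ‖z‖ ^ 2 * M2 := by
        calc ‖(1 / (Real.pi : ℂ))‖ * ‖∫ w : ℂ, dd h w / (z - w)‖ ≤
              1 * ‖∫ w : ℂ, dd h w / (z - w)‖ :=
              mul_le_mul_of_nonneg_right CTG_pi (norm_nonneg _)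
          _ ≤ 2 * R / ‖z‖ ^ 2 * M2 := by rw [one_mul]; exact h1
      have h3 : 2 * R / ‖z‖ ^ 2 * M2 * (1 + ‖z‖) ^ 2 ≤ 2 * R * M2 * L ^ 2 := by
        calc 2 * R / ‖z‖ ^ 2 * M2 * (1 + ‖z‖) ^ 2 ≤ 2 * R / ‖z‖ ^ 2 * M2 * (L * ‖z‖) ^ 2 :=
              mul_le_mul_of_nonneg_left (pow_le_pow_left₀ hp.le hLz 2) (by positivity)
          _ = 2 * R * M2 * L ^ 2 := by field_simp
      have h4 : ‖(1 / (Real.pi : ℂ))‖ * ‖∫ w : ℂ, dd h w / (z - w)‖ * (1 + ‖z‖) ^ 2 ≤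
          2 * R / ‖z‖ ^ 2 * M2 * (1 + ‖z‖) ^ 2 := mul_le_mul_of_nonneg_right h2 (by positivity)
      have : 0 ≤ B1 * (1 + 2 * R) + B2 * (1 + 2 * R) ^ 2 + 2 * M1 * L := by positivity
      linarith

end NLS
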